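import Pool.Agent.W214.KS.BXBK0

/-!
KS project (helper23), task BXBK: the Bessel inequality for systems of linear forms with the sieve
weights of the systems (adapted from `W500/PL/BXB.lean`).
-/

set_option autoImplicit false

namespace Pool.Agent.W214.KS

open Finset
open Pool.Agent.H442R2
open Pool.Agent.H442R2.KF
open Pool.Agent.W23.DC
open Pool.Agent.W23.SG
open Pool.Agent.W23.KT
open Pool.Agent.W23.KS
open Pool.Agent.W23.PL (P1 xx DW Ev LF)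
open Pool.Agent.W363.KT
open Pool.Agent.W500.PL (xx_or xx_nonneg xx_le_one abs_xx Ev_bdd th1 th1_DW Ev_th1 summ_mul point_diag
  point_off ev_log)

lemma SysK.two {k M N : ℕ} {S : Finset (ℤ × ℕ)} (h : SysK k M N S) {N' : ℕ} (hN : N ≤ N') :
    SysK k M N' S := by
  have hNr : (N : ℝ) ≤ N' := by exact_mod_cast hN
  have hp : (N : ℝ) ^ M ≤ (N' : ℝ) ^ M := pow_le_pow_left₀ (Nat.cast_nonneg _) hNr M
  refine ⟨⟨h.sys.card, fun L hL => ?_⟩, h.nz⟩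
  have h1 := h.sys.fo L hL
  exact ⟨h1.a.trans hp, h1.b1, h1.b2.trans hp, h1.cop⟩

theorem BXBK (hFLWK : St_FLWK) (hCORK : St_CORK) (hPBXK : St_PBXK) (hOFDK : St_OFDK)
    (hVLBK : St_VLBK) (hWXS : St_WXS) (hGS : BX.St_GS) (hRT : BX.St_RT) : St_BXBK := by
  classical
  intro k M hk hM A₀ hA₀
  obtain ⟨η₀, hη₀, hη₀40, ofd⟩ := hOFDK k M hk
  obtain ⟨c₁, hc₁, pbx⟩ := hPBXK k M
  obtain ⟨εF, hεF, flw⟩ := hFLWK k hk η₀ (A₀ + 4 * c₁ + 10) hη₀ (by positivity)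
  obtain ⟨CC, EE, NC, hCC, cor⟩ := hCORK k M hk hM
  obtain ⟨c₂, hc₂, vlb⟩ := hVLBK k hk
  refine ⟨EE + (2 * k + 1) + 3, min εF (min (1 / 10) (2 * η₀)),
    lt_min hεF (lt_min (by norm_num) (by positivity)), ?_⟩
  intro ε₁ hε₁ hε₁s B hB
  have hεF1 : ε₁ ≤ εF := hε₁s.trans (min_le_left _ _)
  have hε10 : ε₁ ≤ 1 / 10 := hε₁s.trans ((min_le_right _ _).trans (min_le_left _ _))
  have hεη : ε₁ ≤ 2 * η₀ := hε₁s.trans ((min_le_right _ _).trans (min_le_right _ _))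
  have hε1 : ε₁ ≤ 1 := hε10.trans (by norm_num)
  obtain ⟨η, CO, hη, hCO, ofd1⟩ := ofd ε₁ hε₁ hε1
  obtain ⟨N1, pbx1⟩ := pbx (ε₁ / 2) (by positivity) (by linarith only [hε1])
  obtain ⟨K, hKdef⟩ : ∃ K : ℝ, K = Real.exp (2 * c₁ / ε₁) := ⟨_, rfl⟩
  have hK1 : 1 ≤ K := by
    rw [hKdef]
    exact Real.one_le_exp (by positivity)
  have hK0 : 0 < K := by linarith only [hK1]
  have hKe : Real.exp (c₁ / (ε₁ / 2)) = K := by
    rw [hKdef]
    congr 1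
    field_simp
  have hPBd : ∀ N X : ℕ, N1 ≤ N → X ≤ N → ∀ S : Finset (ℤ × ℕ), Sys k M N S →
      ∀ c : ℕ → ℝ, CofK ((N : ℝ) ^ (ε₁ / 2)) X S c → ∀ n : ℤ,
      |rK k c X S n| ≤ K * (1 + |(n : ℝ)| / N) ^ (1 / 4 : ℝ) := by
    intro N X hN hX S hS c hc n
    have h1 := pbx1 N X hN hX S hS c hc n
    rwa [hKe] at h1
  obtain ⟨N2, C3, hC3, pr⟩ := prK' hRT k M (ε := ε₁ / 2) (by positivity) K hK0 N1 hPBd
  obtain ⟨N3, flw1⟩ := flw ε₁ hε₁ hεF1 B (by omega)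
  obtain ⟨N4, vlb1⟩ := vlb M B (by omega) ε₁ hε₁ hε1
  obtain ⟨ρ, hρdef⟩ : ∃ ρ : ℝ, ρ = Real.exp (-((A₀ + 4 * c₁ + 10) / ε₁)) := ⟨_, rfl⟩
  have hρ0 : 0 < ρ := by rw [hρdef]; exact Real.exp_pos _
  have hρ1 : ρ ≤ 1 := by
    rw [hρdef, Real.exp_le_one_iff]
    have : 0 ≤ (A₀ + 4 * c₁ + 10) / ε₁ := by positivity
    linarith only [this]
  obtain ⟨κ, hκdef⟩ : ∃ κ : ℝ, κ = min 1 (min c₂ (c₂ ^ 2 * ρ)) := ⟨_, rfl⟩
  have hκ0 : 0 < κ := by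
    rw [hκdef]
    exact lt_min one_pos (lt_min hc₂ (by positivity))
  have hκ1 : κ ≤ 1 := by rw [hκdef]; exact min_le_left _ _
  have hκ2 : κ ≤ c₂ := by rw [hκdef]; exact (min_le_right _ _).trans (min_le_left _ _)
  have hκ3 : κ ≤ c₂ ^ 2 * ρ := by rw [hκdef]; exact (min_le_right _ _).trans (min_le_right _ _)
  obtain ⟨n2, hn2, hn2a, hn2b⟩ : ∃ n2 : ℝ, 0 < n2 ∧ n2 ≤ ε₁ / 4 ∧ n2 ≤ 4 / 9 :=
    ⟨min (ε₁ / 4) (4 / 9), lt_min (by positivity) (by norm_num), min_le_left _ _, min_le_right _ _⟩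
  obtain ⟨N5, err⟩ := ev_errK CC κ EE (2 * k + 1) hCC hκ0
  obtain ⟨N6, po⟩ := ev_powK CO κ η (2 * k + 1) hκ0 hη
  obtain ⟨N7, pe⟩ := ev_powK (3 * C3) κ n2 (2 * k + 1) hκ0 hn2
  obtain ⟨N8, hL3⟩ : ∃ N8 : ℕ, ∀ N : ℕ, N8 ≤ N → max 3 (k : ℝ) ≤ Real.log N := by
    have := (Real.tendsto_log_atTop.comp
      (tendsto_natCast_atTop_atTop (R := ℝ))).eventually_ge_atTop (max 3 (k : ℝ))
    exact Filter.eventually_atTop.1 this
  obtain ⟨N9, hp2⟩ : ∃ N9 : ℕ, ∀ N : ℕ, N9 ≤ N → (2 : ℝ) ≤ (N : ℝ) ^ (ε₁ / 4) := by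
    have := ((tendsto_rpow_atTop (by positivity : 0 < ε₁ / 4)).comp
      (tendsto_natCast_atTop_atTop (R := ℝ))).eventually_ge_atTop 2
    exact Filter.eventually_atTop.1 this
  refine ⟨1462500 / ε₁ ^ 2 * K ^ 2, N1 + N2 + N3 + N4 + N5 + N6 + N7 + N8 + N9 + NC + 2,
    by positivity, ?_⟩
  intro N hN f hf 𝒜 h𝒜 hdis T hT
  have hNr : (2 : ℝ) ≤ N := by exact_mod_cast (by omega : 2 ≤ N)
  have hN0 : (0 : ℝ) < N := by linarith only [hNr]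
  have hN1 : (1 : ℝ) ≤ N := by linarith only [hNr]
  obtain ⟨L, hL⟩ : ∃ L : ℝ, L = Real.log N := ⟨_, rfl⟩
  have hL3' : 3 ≤ L := by rw [hL]; exact (le_max_left _ _).trans (hL3 N (by omega))
  have hLk : (k : ℝ) ≤ L := by rw [hL]; exact (le_max_right _ _).trans (hL3 N (by omega))
  have hL0 : 0 < L := by linarith only [hL3']
  have hL1 : 1 ≤ L := by linarith only [hL3']
  have hlogL : 1 ≤ Real.log L := by
    rw [Real.le_log_iff_exp_le hL0]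
    have := Real.exp_one_lt_d9
    linarith only [this, hL3']
  obtain ⟨V, hVdef⟩ : ∃ V : ℝ, V = Vk k (P1 N B ε₁) := ⟨_, rfl⟩
  have hVl : c₂ / L ^ k ≤ V := by
    have h1 := (vlb1 N (by omega)).1
    rw [← hL, ← hVdef] at h1
    refine le_trans ?_ h1
    rw [div_eq_mul_one_div, ← one_div_pow]
    apply mul_le_mul_of_nonneg_left _ hc₂.le
    apply pow_le_pow_left₀ (by positivity)
    rw [div_le_div_iff₀ hL0 (by positivity)]
    have hBr : (1 : ℝ) ≤ B := by exact_mod_cast (by omega : 1 ≤ B)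
    have h2 : 1 ≤ (B : ℝ) * Real.log L := by nlinarith only [hBr, hlogL]
    have h3 : ε₁ * L ≤ 1 * L := mul_le_mul_of_nonneg_right hε1 hL0.le
    have h4 : 1 * L ≤ (B : ℝ) * Real.log L * L := mul_le_mul_of_nonneg_right h2 hL0.le
    linarith only [h3, h4]
  have hV0 : 0 < V := lt_of_lt_of_le (by positivity) hVl
  have hV2 : c₂ ^ 2 / L ^ (2 * k) ≤ V ^ 2 := by
    have e1 : c₂ ^ 2 / L ^ (2 * k) = (c₂ / L ^ k) ^ 2 := by
      rw [div_pow, ← pow_mul, mul_comm k 2]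
    rw [e1]
    exact pow_le_pow_left₀ (by positivity) hVl 2
  rcases 𝒜.eq_empty_or_nonempty with hemp | ⟨S₀, hS₀⟩
  · rw [hemp, sum_empty, ← hVdef, ← hL]
    positivity
  obtain ⟨y, hy⟩ : ∃ y : ℝ, y = N / L := ⟨_, rfl⟩
  have hy0 : 0 < y := by rw [hy]; positivity
  -- the small error
  obtain ⟨e, he⟩ : ∃ e : ℝ, e = κ * N / L ^ (2 * k + 1) := ⟨_, rfl⟩
  have he0 : 0 ≤ e := by rw [he]; positivity
  have hey : e = κ / L ^ (2 * k) * y := by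
    rw [he, hy, pow_succ]
    field_simp
  have he1 : e ≤ ρ * V ^ 2 * y := by
    rw [hey]
    apply mul_le_mul_of_nonneg_right _ hy0.le
    calc κ / L ^ (2 * k) ≤ (c₂ ^ 2 * ρ) / L ^ (2 * k) := by gcongr
      _ = ρ * (c₂ ^ 2 / L ^ (2 * k)) := by ring
      _ ≤ ρ * V ^ 2 := by gcongr
  have he2 : e ≤ V * y := by
    rw [hey]
    apply mul_le_mul_of_nonneg_right _ hy0.le
    refine le_trans ?_ hVl
    calc κ / L ^ (2 * k) ≤ c₂ / L ^ (2 * k) := by gcongr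
      _ ≤ c₂ / L ^ k := by
          apply div_le_div_of_nonneg_left hc₂.le (by positivity)
          exact pow_le_pow_right₀ hL1 (by omega)
  have he3 : e ≤ y := by
    rw [hey]
    have h1 : κ / L ^ (2 * k) ≤ 1 := by
      rw [div_le_one (by positivity)]
      exact hκ1.trans (one_le_pow₀ hL1)
    calc κ / L ^ (2 * k) * y ≤ 1 * y := mul_le_mul_of_nonneg_right h1 hy0.le
      _ = y := one_mul y
  have he4 : e ^ 2 ≤ ρ * V ^ 2 * y ^ 2 := by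
    calc e ^ 2 = e * e := sq e
      _ ≤ (ρ * V ^ 2 * y) * y := mul_le_mul he1 he3 he0 (by positivity)
      _ = _ := by ring
  -- the sets and weights
  obtain ⟨X, hX⟩ : ∃ X : ℕ, X = ⌊(N : ℝ) ^ (49 / 100 : ℝ)⌋₊ := ⟨_, rfl⟩
  have hXθ : (X : ℝ) ≤ (N : ℝ) ^ (49 / 100 : ℝ) := by
    rw [hX]
    exact Nat.floor_le (Real.rpow_nonneg hN0.le _)
  have hXN : X ≤ N := by
    have : (X : ℝ) ≤ N := hXθ.trans (by
      calc (N : ℝ) ^ (49 / 100 : ℝ) ≤ (N : ℝ) ^ (1 : ℝ) :=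
            Real.rpow_le_rpow_of_exponent_le hN1 (by norm_num)
        _ = N := Real.rpow_one _)
    exact_mod_cast this
  obtain ⟨D, hD⟩ : ∃ D : ℕ, D = ⌊(N : ℝ) ^ η₀⌋₊ := ⟨_, rfl⟩
  have hfl : ∀ S : Finset (ℤ × ℕ), ∃ th dl : ℕ → ℝ, DW (PK N B ε₁ S) D L th ∧
      DW (PK N B ε₁ S) D L dl ∧
      (∀ m : ℤ, xx (PK N B ε₁ S) m ≤ Ev th D m ∧ Ev th D m - xx (PK N B ε₁ S) m ≤ Ev dl D m) ∧
      |hatk k th D - Vk k (PK N B ε₁ S)| ≤ ρ * Vk k (PK N B ε₁ S) ∧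
      |hatk k dl D| ≤ ρ * Vk k (PK N B ε₁ S) := by
    intro S
    have h := flw1 N (by omega) D hD (PK N B ε₁ S) (filter_subset _ _)
    rwa [← hL, ← hρdef] at h
  choose th dl hth hdl hxx hhat hhdl using hfl
  have hVS : ∀ S ∈ 𝒜, V ≤ Vk k (PK N B ε₁ S) ∧ Vk k (PK N B ε₁ S) ≤ 2 * V := by
    intro S hS
    have h := (vlb1 N (by omega)).2.2 S (h𝒜 S hS).sys
    rwa [← hVdef] at h
  have hhat2 : ∀ S ∈ 𝒜, |hatk k (th S) D| ≤ 4 * V := by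
    intro S hS
    obtain ⟨h3, h4⟩ := hVS S hS
    have h5 : 0 < Vk k (PK N B ε₁ S) := lt_of_lt_of_le hV0 h3
    have h1 : |hatk k (th S) D| ≤ |hatk k (th S) D - Vk k (PK N B ε₁ S)| + |Vk k (PK N B ε₁ S)| := by
      have := abs_add_le (hatk k (th S) D - Vk k (PK N B ε₁ S)) (Vk k (PK N B ε₁ S))
      simpa using this
    rw [abs_of_pos h5] at h1
    have h2 : ρ * Vk k (PK N B ε₁ S) ≤ 1 * Vk k (PK N B ε₁ S) :=
      mul_le_mul_of_nonneg_right hρ1 h5.le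
    linarith only [h1, h2, hhat S, h4]
  have hhdl2 : ∀ S ∈ 𝒜, |hatk k (dl S) D| ≤ 2 * (ρ * V) := by
    intro S hS
    have h4 := mul_le_mul_of_nonneg_left (hVS S hS).2 hρ0.le
    linarith only [hhdl S, h4]
  have hNη : (1 : ℝ) ≤ (N : ℝ) ^ η₀ := Real.one_le_rpow hN1 hη₀.le
  have hD1 : 1 ≤ D := by
    rw [hD]
    exact Nat.le_floor (by exact_mod_cast hNη)
  have hDη : (D : ℝ) ≤ (N : ℝ) ^ η₀ := by
    rw [hD]
    exact Nat.floor_le (by positivity)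
  have hP1 : ∀ S : Finset (ℤ × ℕ), ∀ p ∈ PK N B ε₁ S, p.Prime ∧ L ^ B ≤ (p : ℝ) ∧ gp S p := by
    intro S p hp
    unfold PK P1 at hp
    rw [mem_filter, mem_filter] at hp
    rw [hL]
    exact ⟨hp.1.2.1, hp.1.2.2.1, hp.2⟩
  have hyB : 2 ≤ L ^ B := by
    calc (2 : ℝ) ≤ L := by linarith only [hL3']
      _ ≤ L ^ B := le_self_pow₀ hL1 (by omega)
  have hkB : (k : ℝ) ≤ L ^ B := hLk.trans (le_self_pow₀ hL1 (by omega))
  have hP2 : ∀ S : Finset (ℤ × ℕ), ∀ p ∈ PK N B ε₁ S,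
      p.Prime ∧ (p : ℝ) < (N : ℝ) ^ ε₁ ∧ gp S p := by
    intro S p hp
    have h1 := hP1 S p hp
    unfold PK P1 at hp
    rw [mem_filter, mem_filter] at hp
    refine ⟨h1.1, ?_, h1.2.2⟩
    have h2 := hp.1.2.2.2
    unfold tt at h2
    rw [← hL, div_lt_iff₀ hL0] at h2
    have hp0 : (0 : ℝ) < p := by exact_mod_cast h1.1.pos
    rw [← Real.log_lt_log_iff hp0 (by positivity), Real.log_rpow hN0, ← hL]
    exact h2
  obtain ⟨g, hg⟩ : ∃ g : ℝ, g = (N : ℝ) ^ (ε₁ / 4) := ⟨_, rfl⟩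
  have hg2 : 2 ≤ g := by rw [hg]; exact hp2 N (by omega)
  have hgg : (N : ℝ) ^ (ε₁ / 2) = g * g := by
    rw [hg, ← Real.rpow_add hN0]
    congr 1
    ring
  obtain ⟨z, hz⟩ : ∃ z : ℕ, z = ⌊(N : ℝ) ^ (ε₁ / 2)⌋₊ := ⟨_, rfl⟩
  have hz1 : (z : ℝ) ≤ (N : ℝ) ^ (ε₁ / 2) := by
    rw [hz]
    exact Nat.floor_le (Real.rpow_nonneg hN0.le _)
  have hz2 : (N : ℝ) ^ (ε₁ / 2) < z + 1 := by
    rw [hz]
    exact Nat.lt_floor_add_one _
  have hgz : g ≤ z := by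
    rw [hgg] at hz2
    nlinarith only [hz2, hg2]
  have hz3 : 2 ≤ z := by
    have : (2 : ℝ) ≤ z := hg2.trans hgz
    exact_mod_cast this
  have hlz : ε₁ / 4 * L ≤ Real.log z := by
    rw [hL, ← Real.log_rpow hN0, ← hg]
    exact Real.log_le_log (by linarith only [hg2]) hgz
  have hlz0 : 0 < Real.log z := lt_of_lt_of_le (by positivity) hlz
  have hz4 : (z : ℝ) ≤ (N : ℝ) ^ η₀ :=
    hz1.trans (Real.rpow_le_rpow_of_exponent_le hN1 (by linarith only [hεη]))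
  have hz5 : (z : ℝ) < (N : ℝ) ^ ε₁ := by
    refine lt_of_le_of_lt hz1 ?_
    exact Real.rpow_lt_rpow_of_exponent_lt (by linarith only [hNr]) (by linarith only [hε₁])
  obtain ⟨lam, hlam⟩ := hWXS z hz3
  -- CORK at `N` and `2N`
  have hge : ∀ N' : ℕ, (N' = N ∨ N' = 2 * N) → N ≤ N' := by
    intro N' h
    rcases h with h | h <;> omega
  have hzN' : ∀ N' : ℕ, N ≤ N' → (z : ℝ) ≤ (N' : ℝ) ^ (1 / 20 : ℝ) := by
    intro N' hN'
    have hMN : (N : ℝ) ≤ N' := by exact_mod_cast hN'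
    calc (z : ℝ) ≤ (N : ℝ) ^ (ε₁ / 2) := hz1
      _ ≤ (N : ℝ) ^ (1 / 20 : ℝ) :=
          Real.rpow_le_rpow_of_exponent_le hN1 (by linarith only [hε10])
      _ ≤ (N' : ℝ) ^ (1 / 20 : ℝ) := Real.rpow_le_rpow hN0.le hMN (by norm_num)
  have hDN' : ∀ N' : ℕ, N ≤ N' → (D : ℝ) ≤ (N' : ℝ) ^ (1 / 20 : ℝ) := by
    intro N' hN'
    have hMN : (N : ℝ) ≤ N' := by exact_mod_cast hN'
    calc (D : ℝ) ≤ (N : ℝ) ^ η₀ := hDη
      _ ≤ (N : ℝ) ^ (1 / 20 : ℝ) :=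
          Real.rpow_le_rpow_of_exponent_le hN1 (by linarith only [hη₀40])
      _ ≤ (N' : ℝ) ^ (1 / 20 : ℝ) := Real.rpow_le_rpow hN0.le hMN (by norm_num)
  have cuA : ∀ N' : ℕ, (N' = N ∨ N' = 2 * N) → ∀ S ∈ 𝒜, ∀ t : ℕ → ℝ,
      DW (PK N B ε₁ S) D L t →
      |∑' n : ℤ, Wt N' n * BX.nuS lam z n * Ev t D (Fp S n) -
        N' * LF lam z * hatk k t D| ≤ e := by
    intro N' hN' S hS t h1
    have hNN := hge N' hN'
    have h3 := (cor N' (by omega) z D (hzN' N' hNN) hD1 (hDN' N' hNN) lam hlam S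
      (SysK.two (h𝒜 S hS) hNN) (PK N B ε₁ S) (L ^ B) hyB hkB (hP1 S) L t hL1 h1).2
    refine h3.trans ?_
    have h4 := err N (by omega) B hB N' hN'
    rw [← hL] at h4
    rw [he]
    exact h4
  have cuB : ∀ N' : ℕ, (N' = N ∨ N' = 2 * N) → ∀ S ∈ 𝒜, ∀ S' ∈ 𝒜, S ≠ S' → ∀ t t' : ℕ → ℝ,
      DW (PK N B ε₁ S) D L t → DW (PK N B ε₁ S') D L t' →
      |∑' n : ℤ, Wt N' n * BX.nuS lam z n * (Ev t D (Fp S n) * Ev t' D (Fp S' n)) -
        N' * LF lam z * (hatk k t D * hatk k t' D)| ≤ e := by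
    intro N' hN' S hS S' hS' hSS t t' h1 h2
    have hNN := hge N' hN'
    have h3 := (cor N' (by omega) z D (hzN' N' hNN) hD1 (hDN' N' hNN) lam hlam S
      (SysK.two (h𝒜 S hS) hNN) (PK N B ε₁ S) (L ^ B) hyB hkB (hP1 S) L t hL1 h1).1 S'
      (SysK.two (h𝒜 S' hS') hNN) (hdis S hS S' hS' hSS) (PK N B ε₁ S') (hP1 S') t' h2
    refine h3.trans ?_
    have h4 := err N (by omega) B hB N' hN'
    rw [← hL] at h4
    rw [he]
    exact h4
  -- the sum of the weights and `LF`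
  have hS1 : |∑' n : ℤ, Wt N n * BX.nuS lam z n - N * LF lam z| ≤ e := by
    have h1 := cuA N (Or.inl rfl) S₀ hS₀ th1 (th1_DW _ hD1 hL1)
    simpa only [Ev_th1 hD1, hatk_th1 k hD1, mul_one] using h1
  have hS0 : 0 ≤ ∑' n : ℤ, Wt N n * BX.nuS lam z n :=
    tsum_nonneg fun n => BX.TaskBK.w_nonneg N z lam n
  have hLFu : LF lam z ≤ 8 / (ε₁ * L) := by
    have h1 := hlam.sw.form
    change LF lam z ≤ 2 / Real.log z at h1
    refine h1.trans ?_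
    rw [div_le_div_iff₀ hlz0 (by positivity)]
    linarith only [hlz]
  have hLFl : -(8 / (ε₁ * L)) ≤ LF lam z := by
    have h1 := (abs_le.1 hS1).2
    have h2 : -e ≤ N * LF lam z := by linarith only [h1, hS0]
    have h3 : e ≤ N * (8 / (ε₁ * L)) := by
      refine he3.trans ?_
      rw [hy, div_eq_mul_one_div]
      apply mul_le_mul_of_nonneg_left _ hN0.le
      rw [div_le_div_iff₀ hL0 (by positivity)]
      have h5 : ε₁ * L ≤ 1 * L := mul_le_mul_of_nonneg_right hε1 hL0.le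
      linarith only [h5, hL0]
    have h4 : N * (-(8 / (ε₁ * L))) ≤ N * LF lam z := by linarith only [h2, h3]
    exact le_of_mul_le_mul_left h4 hN0
  have hLF : |LF lam z| ≤ 8 / (ε₁ * L) := abs_le.2 ⟨hLFl, hLFu⟩
  have hNLF : N * |LF lam z| ≤ 8 / ε₁ * y := by
    calc N * |LF lam z| ≤ N * (8 / (ε₁ * L)) := mul_le_mul_of_nonneg_left hLF hN0.le
      _ = 8 / ε₁ * y := by rw [hy]; field_simp
  have hS2 : ∑' n : ℤ, Wt N n * BX.nuS lam z n ≤ 9 / ε₁ * y := by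
    have h1 := (abs_le.1 hS1).2
    have h2 : N * LF lam z ≤ N * |LF lam z| := mul_le_mul_of_nonneg_left (le_abs_self _) hN0.le
    have h3 : y ≤ 1 / ε₁ * y := by
      have : 1 ≤ 1 / ε₁ := by rw [le_div_iff₀ hε₁]; linarith only [hε1]
      calc y = 1 * y := (one_mul y).symm
        _ ≤ 1 / ε₁ * y := mul_le_mul_of_nonneg_right this hy0.le
    have h4 : 9 / ε₁ * y = 8 / ε₁ * y + 1 / ε₁ * y := by ring
    linarith only [h1, h2, h3, h4, hNLF, he3]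
  -- upper bounds for the sums at `2N`
  have h2NLF : ((2 * N : ℕ) : ℝ) * |LF lam z| ≤ 16 / ε₁ * y := by
    push_cast
    have : 16 / ε₁ * y = 2 * (8 / ε₁ * y) := by ring
    linarith only [this, hNLF]
  have cuA2 : ∀ S ∈ 𝒜, ∀ t : ℕ → ℝ, DW (PK N B ε₁ S) D L t → ∀ h : ℝ, |hatk k t D| ≤ h →
      ∑' n : ℤ, Wt (2 * N) n * BX.nuS lam z n * Ev t D (Fp S n) ≤ 16 / ε₁ * y * h + e := by
    intro S hS t h1 h hh
    have h3 := (abs_le.1 (cuA (2 * N) (Or.inr rfl) S hS t h1)).2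
    have h4 : ((2 * N : ℕ) : ℝ) * LF lam z * hatk k t D ≤ 16 / ε₁ * y * h := by
      refine (le_abs_self _).trans ?_
      rw [abs_mul, abs_mul, Nat.abs_cast]
      exact mul_le_mul h2NLF hh (by positivity) (by positivity)
    linarith only [h3, h4]
  have cuB2 : ∀ S ∈ 𝒜, ∀ S' ∈ 𝒜, S ≠ S' → ∀ t t' : ℕ → ℝ,
      DW (PK N B ε₁ S) D L t → DW (PK N B ε₁ S') D L t' →
      ∀ h h' : ℝ, 0 ≤ h → |hatk k t D| ≤ h → |hatk k t' D| ≤ h' →
      ∑' n : ℤ, Wt (2 * N) n * BX.nuS lam z n * (Ev t D (Fp S n) * Ev t' D (Fp S' n)) ≤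
        16 / ε₁ * y * (h * h') + e := by
    intro S hS S' hS' hSS t t' h1 h2 h h' hh0 hh hh'
    have h3 := (abs_le.1 (cuB (2 * N) (Or.inr rfl) S hS S' hS' hSS t t' h1 h2)).2
    have h4 : ((2 * N : ℕ) : ℝ) * LF lam z * (hatk k t D * hatk k t' D) ≤
        16 / ε₁ * y * (h * h') := by
      refine (le_abs_self _).trans ?_
      rw [abs_mul, abs_mul, abs_mul, Nat.abs_cast]
      have h5 : |hatk k t D| * |hatk k t' D| ≤ h * h' := mul_le_mul hh hh' (abs_nonneg _) hh0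
      exact mul_le_mul h2NLF h5 (by positivity) (by positivity)
    linarith only [h3, h4]
  -- coefficients
  have hc : ∀ S : Finset (ℤ × ℕ), ∃ c : ℕ → ℝ, S ∈ 𝒜 → (CofK ((N : ℝ) ^ (ε₁ / 2)) X S c ∧
      (∀ d, c d ≠ 0 → d ∈ T S) ∧
      ∑ d ∈ T S, |DK k (fun p => f p * xx (PK N B ε₁ S) (Fp S p)) N S d| ≤
        |∑ p ∈ (Icc 1 N).filter (fun p => p.Prime ∧ z < p), f p * (xx (PK N B ε₁ S) (Fp S p) *
          rK k c X S p)| + C3 * (z + X + (N : ℝ) ^ (1 - ε₁ / 2 / 2))) := by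
    intro S
    by_cases hS : S ∈ 𝒜
    · obtain ⟨c, h1, h2, h3⟩ := pr N z X (by omega) hXN
        (fun p => f p * xx (PK N B ε₁ S) (Fp S p))
        (fun p => by
          rw [abs_mul]
          calc |f p| * |xx (PK N B ε₁ S) (Fp S p)| ≤ 1 * 1 :=
                mul_le_mul (hf p) (abs_xx _ _) (abs_nonneg _) zero_le_one
            _ = 1 := mul_one 1) S (h𝒜 S hS).sys (T S)
        (fun d hd => by rw [hX]; exact (hT S hS d hd).1)
      refine ⟨c, fun _ => ⟨h1, h2, ?_⟩⟩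
      have h4 : ∑ p ∈ (Icc 1 N).filter (fun p => p.Prime ∧ z < p),
          f p * xx (PK N B ε₁ S) (Fp S p) * rK k c X S p =
          ∑ p ∈ (Icc 1 N).filter (fun p => p.Prime ∧ z < p), f p *
          (xx (PK N B ε₁ S) (Fp S p) * rK k c X S p) := by
        refine sum_congr rfl fun p _ => ?_
        ring
      rw [← h4]
      exact h3
    · exact ⟨0, fun h => absurd h hS⟩
  choose c hc using hc
  have hR : ∀ S ∈ 𝒜, ∀ n : ℤ, |rK k (c S) X S n| ≤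
      K * (1 + |(n : ℝ)| / N) ^ (1 / 4 : ℝ) := fun S hS n =>
    hPBd N X (by omega) hXN S (h𝒜 S hS).sys (c S) (hc S hS).1 n
  have hbR : ∀ S ∈ 𝒜, ∀ n : ℤ, |rK k (c S) X S n| ≤ Ck k (ε₁ / 2) * X := fun S hS n =>
    rK_bd (by positivity) (by omega) hXN (hc S hS).1 n
  have hCk1 := Ck_one k (ε₁ / 2)
  have hw25 : ∀ p ∈ (Icc 1 N).filter (fun p => p.Prime ∧ z < p),
      (1 : ℝ) ≤ 25 * (fun n : ℤ => Wt N n * BX.nuS lam z n) (p : ℤ) := by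
    intro p hp
    rw [mem_filter, mem_Icc] at hp
    exact BX.TaskBK.w_prime hlam.sw (by omega) hp.2.1 hp.2.2 hp.1.2
  have hFs : ∑ p ∈ (Icc 1 N).filter (fun p => p.Prime ∧ z < p), f p ^ 2 ≤ 225 / ε₁ * y := by
    have h2 : ∑ p ∈ (Icc 1 N).filter (fun p => p.Prime ∧ z < p),
        (Wt N (p : ℤ) * BX.nuS lam z (p : ℤ)) ≤ ∑' n : ℤ, Wt N n * BX.nuS lam z n := by
      have h3 := (BX.TaskBK.summ_w (by omega : 1 ≤ N) hlam.sw).sum_le_tsum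
        (((Icc 1 N).filter (fun p => p.Prime ∧ z < p)).map
          ⟨(fun p : ℕ => (p : ℤ)), Nat.cast_injective⟩)
        (fun n _ => BX.TaskBK.w_nonneg N z lam n)
      rw [sum_map] at h3
      exact h3
    calc ∑ p ∈ (Icc 1 N).filter (fun p => p.Prime ∧ z < p), f p ^ 2
        ≤ ∑ p ∈ (Icc 1 N).filter (fun p => p.Prime ∧ z < p),
            25 * (Wt N (p : ℤ) * BX.nuS lam z (p : ℤ)) := by
          refine sum_le_sum fun p hp => le_trans ?_ (hw25 p hp)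
          rw [← sq_abs]
          exact pow_le_one₀ (abs_nonneg _) (hf p)
      _ = 25 * ∑ p ∈ (Icc 1 N).filter (fun p => p.Prime ∧ z < p),
            (Wt N (p : ℤ) * BX.nuS lam z (p : ℤ)) := by rw [mul_sum]
      _ ≤ 25 * (9 / ε₁ * y) := by
          have := h2.trans hS2
          linarith only [this]
      _ = 225 / ε₁ * y := by ring
  -- `G` and `O`
  obtain ⟨G, hG⟩ : ∃ G : ℝ, G = 130 / ε₁ * K ^ 2 * (y * V) := ⟨_, rfl⟩
  obtain ⟨O, hO⟩ : ∃ O : ℝ, O = 517 / ε₁ * K ^ 2 * (ρ * V ^ 2 * y) := ⟨_, rfl⟩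
  have hG0 : 0 ≤ G := by rw [hG]; positivity
  have hO0 : 0 ≤ O := by rw [hO]; positivity
  have hKK : 1 ≤ K ^ 2 := one_le_pow₀ hK1
  have hone : 1 ≤ 1 / ε₁ := by rw [le_div_iff₀ hε₁]; linarith only [hε1]
  have hGle : ∀ S ∈ 𝒜, ∑' n : ℤ, Wt N n * BX.nuS lam z n *
      ((xx (PK N B ε₁ S) (Fp S n) * rK k (c S) X S n) *
        (xx (PK N B ε₁ S) (Fp S n) * rK k (c S) X S n)) ≤ G := by
    intro S hS
    have h1 := cuA2 S hS (th S) (hth S) (4 * V) (hhat2 S hS)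
    have h2 := diag_gen (N := N) (z := z) (x := fun n => xx (PK N B ε₁ S) (Fp S n))
      (t := fun n => Ev (th S) D (Fp S n)) (R := fun n => rK k (c S) X S n) (by omega) hlam.sw hGS
      hK0.le (fun n => xx_or _ _) (fun n => (hxx S (Fp S n)).1) (hbR S hS)
      (fun n => Ev_bdd (hth S) _) (hR S hS) h1
    refine h2.trans ?_
    rw [hG]
    have h3 : 16 / ε₁ * y * (4 * V) + e ≤ 65 / ε₁ * (y * V) := by
      have h4 : 1 * (V * y) ≤ 1 / ε₁ * (V * y) :=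
        mul_le_mul_of_nonneg_right hone (by positivity)
      have h5 : 65 / ε₁ * (y * V) = 64 / ε₁ * (y * V) + 1 / ε₁ * (V * y) := by ring
      have h6 : 16 / ε₁ * y * (4 * V) = 64 / ε₁ * (y * V) := by ring
      linarith only [h4, h5, h6, he2]
    calc 2 * K ^ 2 * (16 / ε₁ * y * (4 * V) + e) ≤ 2 * K ^ 2 * (65 / ε₁ * (y * V)) := by
          gcongr
      _ = 130 / ε₁ * K ^ 2 * (y * V) := by ring
  have hOle : ∀ S ∈ 𝒜, ∀ S' ∈ 𝒜, S ≠ S' → |∑' n : ℤ, Wt N n * BX.nuS lam z n *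
      ((xx (PK N B ε₁ S) (Fp S n) * rK k (c S) X S n) *
        (xx (PK N B ε₁ S') (Fp S' n) * rK k (c S') X S' n))| ≤ O := by
    intro S hS S' hS' hSS
    have hE0 : ∀ S : Finset (ℤ × ℕ), ∀ m : ℤ, 0 ≤ Ev (th S) D m := fun S m =>
      (xx_nonneg _ _).trans (hxx S m).1
    have h1 := ofd1 N z D X (by omega) hz4 hz5 hDη hX lam hlam S S' (h𝒜 S hS) (h𝒜 S' hS')
      (hdis S hS S' hS' hSS) (PK N B ε₁ S) (PK N B ε₁ S') (hP2 S) (hP2 S') (th S) (th S')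
      (by rw [← hL]; exact hth S) (by rw [← hL]; exact hth S') (hE0 S) (hE0 S') (c S) (c S')
      (hc S hS).1 (hc S' hS').1
      (fun d hd => hT S hS d ((hc S hS).2.1 d hd))
      (fun d hd => hT S' hS' d ((hc S' hS').2.1 d hd))
    have h2 := po N (by omega)
    rw [← hL, ← he] at h2
    have h3 := cuB2 S hS S' hS' hSS (dl S) (th S') (hdl S) (hth S') (2 * (ρ * V)) (4 * V)
      (by positivity) (hhdl2 S hS) (hhat2 S' hS')
    have h4 := cuB2 S hS S' hS' hSS (th S) (dl S') (hth S) (hdl S') (4 * V) (2 * (ρ * V))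
      (by positivity) (hhat2 S hS) (hhdl2 S' hS')
    have e4 : 16 / ε₁ * y * (4 * V * (2 * (ρ * V))) + e =
        16 / ε₁ * y * (2 * (ρ * V) * (4 * V)) + e := by ring
    rw [e4] at h4
    have h5 := off_gen (N := N) (z := z) (x := fun n => xx (PK N B ε₁ S) (Fp S n))
      (x' := fun n => xx (PK N B ε₁ S') (Fp S' n))
      (t := fun n => Ev (th S) D (Fp S n)) (t' := fun n => Ev (th S') D (Fp S' n))
      (s := fun n => Ev (dl S) D (Fp S n)) (s' := fun n => Ev (dl S') D (Fp S' n))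
      (R := fun n => rK k (c S) X S n) (R' := fun n => rK k (c S') X S' n) (by omega) hlam.sw hGS
      hK0.le (fun n => xx_or _ _) (fun n => xx_or _ _) (fun n => (hxx S (Fp S n)).1)
      (fun n => (hxx S' (Fp S' n)).1) (fun n => (hxx S (Fp S n)).2) (fun n => (hxx S' (Fp S' n)).2)
      (hbR S hS) (hbR S' hS') (fun n => Ev_bdd (hth S) _) (fun n => Ev_bdd (hth S') _)
      (fun n => Ev_bdd (hdl S) _) (fun n => Ev_bdd (hdl S') _) (hR S hS) (hR S' hS')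
      (h1.trans h2) h3 h4
    refine h5.trans ?_
    rw [hO]
    obtain ⟨Q, hQ⟩ : ∃ Q : ℝ, Q = ρ * V ^ 2 * y := ⟨_, rfl⟩
    rw [← hQ] at he1 ⊢
    have hQ0 : 0 ≤ Q := by rw [hQ]; positivity
    have e1 : 16 / ε₁ * y * (2 * (ρ * V) * (4 * V)) = 128 / ε₁ * Q := by rw [hQ]; ring
    rw [e1]
    have h6 : 1 * Q ≤ 1 / ε₁ * Q := mul_le_mul_of_nonneg_right hone hQ0
    have h7 : 128 / ε₁ * Q + e ≤ 129 / ε₁ * Q := by
      have : 129 / ε₁ * Q = 128 / ε₁ * Q + 1 / ε₁ * Q := by ring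
      linarith only [this, h6, he1]
    have h8 : e ≤ 1 / ε₁ * K ^ 2 * Q := by
      have h9 : 0 ≤ 1 / ε₁ * Q := by positivity
      have h10 : 1 / ε₁ * Q * 1 ≤ 1 / ε₁ * Q * K ^ 2 := mul_le_mul_of_nonneg_left hKK h9
      have h11 : 1 / ε₁ * K ^ 2 * Q = 1 / ε₁ * Q * K ^ 2 := by ring
      linarith only [h6, h10, h11, he1]
    calc e + 4 * K ^ 2 * (128 / ε₁ * Q + e) ≤ 1 / ε₁ * K ^ 2 * Q + 4 * K ^ 2 * (129 / ε₁ * Q) := by
          gcongr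
      _ = 517 / ε₁ * K ^ 2 * Q := by ring
  have hdu := Pool.Agent.W74.SG.DUg.du (fun n : ℤ => Wt N n * BX.nuS lam z n)
    (fun n => BX.TaskBK.w_nonneg N z lam n)
    ((Icc 1 N).filter (fun p => p.Prime ∧ z < p)) hw25 𝒜
    (fun S n => xx (PK N B ε₁ S) (Fp S n) * rK k (c S) X S n) f
    (fun S hS S' hS' => by
      refine summ_mul (K := (Ck k (ε₁ / 2) * X) * (Ck k (ε₁ / 2) * X)) (by omega) hlam.sw
        (fun n => ?_)
      have b : ∀ S ∈ 𝒜, |xx (PK N B ε₁ S) (Fp S n) * rK k (c S) X S n| ≤ Ck k (ε₁ / 2) * X := by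
        intro S hS
        rw [abs_mul]
        calc |xx (PK N B ε₁ S) (Fp S n)| * |rK k (c S) X S n| ≤ 1 * (Ck k (ε₁ / 2) * X) :=
              mul_le_mul (abs_xx _ _) (hbR S hS n) (abs_nonneg _) zero_le_one
          _ = Ck k (ε₁ / 2) * X := one_mul _
      rw [abs_mul]
      exact mul_le_mul (b S hS) (b S' hS') (abs_nonneg _) (by positivity))
    G O hGle hG0 hO0 hOle
  -- the error on the prime side
  obtain ⟨E, hEe⟩ : ∃ E : ℝ, E = C3 * (z + X + (N : ℝ) ^ (1 - ε₁ / 2 / 2)) := ⟨_, rfl⟩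
  have hE0 : 0 ≤ E := by rw [hEe]; positivity
  have hE : E ≤ e := by
    have h1 : (z : ℝ) ≤ (N : ℝ) ^ (1 - n2) :=
      hz1.trans (Real.rpow_le_rpow_of_exponent_le hN1 (by linarith only [hn2b, hε1]))
    have h2 : (X : ℝ) ≤ (N : ℝ) ^ (1 - n2) :=
      hXθ.trans (Real.rpow_le_rpow_of_exponent_le hN1 (by linarith only [hn2b]))
    have h3 : (N : ℝ) ^ (1 - ε₁ / 2 / 2) ≤ (N : ℝ) ^ (1 - n2) :=
      Real.rpow_le_rpow_of_exponent_le hN1 (by linarith only [hn2a])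
    have h4 := pe N (by omega)
    rw [← hL, ← he] at h4
    refine le_trans ?_ h4
    rw [hEe]
    calc C3 * (z + X + (N : ℝ) ^ (1 - ε₁ / 2 / 2))
        ≤ C3 * ((N : ℝ) ^ (1 - n2) + (N : ℝ) ^ (1 - n2) + (N : ℝ) ^ (1 - n2)) := by gcongr
      _ = 3 * C3 * (N : ℝ) ^ (1 - n2) := by ring
  have hE2 : E ^ 2 ≤ ρ * V ^ 2 * y ^ 2 := (pow_le_pow_left₀ hE0 hE 2).trans he4
  have hSa : ∑ S ∈ 𝒜, (∑ d ∈ T S,
      |DK k (fun p => f p * xx (PK N B ε₁ S) (Fp S p)) N S d|) ^ 2 ≤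
      2 * (∑ S ∈ 𝒜, (∑ p ∈ (Icc 1 N).filter (fun p => p.Prime ∧ z < p),
        f p * (fun (S : Finset (ℤ × ℕ)) (n : ℤ) => xx (PK N B ε₁ S) (Fp S n) *
          rK k (c S) X S n) S p) ^ 2) +
        2 * 𝒜.card * E ^ 2 := by
    calc ∑ S ∈ 𝒜, (∑ d ∈ T S, |DK k (fun p => f p * xx (PK N B ε₁ S) (Fp S p)) N S d|) ^ 2
        ≤ ∑ S ∈ 𝒜, (2 * (∑ p ∈ (Icc 1 N).filter (fun p => p.Prime ∧ z < p),
            f p * (fun (S : Finset (ℤ × ℕ)) (n : ℤ) => xx (PK N B ε₁ S) (Fp S n) *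
              rK k (c S) X S n) S p) ^ 2 + 2 * E ^ 2) := by
          refine sum_le_sum fun S hS => ?_
          have h1 := (hc S hS).2.2
          rw [← hEe] at h1
          have h2 := pow_le_pow_left₀ (sum_nonneg fun d _ => abs_nonneg _) h1 2
          exact h2.trans (BX.TaskBK.two_sq _ _)
      _ = _ := by
          rw [sum_add_distrib, ← mul_sum, sum_const, nsmul_eq_mul]
          ring
  have hfin := numK hy0 hV0 hK1 hρ0 hε₁ (Nat.cast_nonneg 𝒜.card) hFs hG hO hdu hE2 hSa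
  rw [← hVdef, ← hL, ← hy]
  refine hfin.trans ?_
  apply mul_le_mul_of_nonneg_left _ (sq_nonneg _)
  have h1 := fin_constK (A₀ := A₀) hε₁ hε10 hc₁
  rw [← hKdef, ← hρdef] at h1
  have h2 : (5816250 / ε₁ ^ 2 * K ^ 2 + 2) * ρ * V ^ 2 * (𝒜.card : ℝ) ≤
      Real.exp (-(A₀ / ε₁)) * V ^ 2 * 𝒜.card := by
    gcongr
  linarith only [h2]

end Pool.Agent.W214.KS
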