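import Pool.Agent.W23.KS.Defs
import Pool.Agent.W363.KT.BLKa
import Pool.Agent.W500.PL.BXB0

/-!
KS project (helper23), task BXBK: auxiliary lemmas (adapted from `W363/KT/BLKa.lean` and
`W500/PL/BXB0.lean`).
-/

set_option autoImplicit false

namespace Pool.Agent.W214.KS

open Finset
open Pool.Agent.H442R2
open Pool.Agent.H442R2.KF
open Pool.Agent.W23.DC
open Pool.Agent.W23.SG
open Pool.Agent.W23.KT
open Pool.Agent.W23.KS
open Pool.Agent.W23.PL (P1 xx DW Ev LF)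
open Pool.Agent.W363.KT
open Pool.Agent.W500.PL (xx_or xx_nonneg xx_le_one abs_xx Ev_bdd th1 th1_DW Ev_th1 summ_mul point_diag
  point_off ev_log)

/-- the prime side, from a pointwise bound -/
theorem prK' (hRT : BX.St_RT) (k M : ℕ) {ε : ℝ} (hε : 0 < ε) (C₁ : ℝ) (hC₁ : 0 < C₁) (N₁ : ℕ)
    (hPB : ∀ N X : ℕ, N₁ ≤ N → X ≤ N → ∀ S : Finset (ℤ × ℕ), Sys k M N S →
      ∀ c : ℕ → ℝ, CofK ((N : ℝ) ^ ε) X S c → ∀ n : ℤ,
      |rK k c X S n| ≤ C₁ * (1 + |(n : ℝ)| / N) ^ (1 / 4 : ℝ)) :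
    ∃ (N₀ : ℕ) (C : ℝ), 0 < C ∧ ∀ (N z X : ℕ), N₀ ≤ N → X ≤ N →
    ∀ f : ℕ → ℝ, (∀ p, |f p| ≤ 1) → ∀ S : Finset (ℤ × ℕ), Sys k M N S →
    ∀ T : Finset ℕ, (∀ d ∈ T, Mo ((N : ℝ) ^ ε) X S d) →
    ∃ c : ℕ → ℝ, CofK ((N : ℝ) ^ ε) X S c ∧ (∀ d, c d ≠ 0 → d ∈ T) ∧
      ∑ d ∈ T, |DK k f N S d| ≤
        |∑ p ∈ (Icc 1 N).filter (fun p => p.Prime ∧ z < p), f p * rK k c X S p| +
          C * (z + X + (N : ℝ) ^ (1 - ε / 2)) := by
  classical
  obtain ⟨C₂, hC₂, hRT⟩ := hRT ε hε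
  have hK1 := Ck_one k ε
  have hK0 : 0 < Ck k ε := by linarith
  refine ⟨max N₁ 2, 2 * C₁ + k * Ck k ε + Ck k ε * C₂, by positivity, ?_⟩
  intro N z X hN hXN f hf S hS T hT
  have hN1 : N₁ ≤ N := (le_max_left _ _).trans hN
  have hN2 : 2 ≤ N := (le_max_right _ _).trans hN
  have hNpos : (0 : ℝ) < N := by exact_mod_cast (by omega : 0 < N)
  have hCof : CofK ((N : ℝ) ^ ε) X S (co k f N S T) :=
    ⟨fun d => co_bd k f N S T d, fun d hd => hT d (co_mem hd)⟩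
  refine ⟨co k f N S T, hCof, fun d hd => co_mem hd, ?_⟩
  set c := co k f N S T with hc
  set P := (Icc 1 N).filter Nat.Prime with hP
  set F := ∑ p ∈ P, f p with hF
  -- number of primes
  have hPcard : (P.card : ℝ) ≤ N := by
    have : P.card ≤ (Icc 1 N).card := Finset.card_filter_le _ _
    rw [Nat.card_Icc] at this
    exact_mod_cast (by omega : P.card ≤ N)
  have hFabs : |F| ≤ N := by
    refine (Finset.abs_sum_le_sum_abs _ _).trans ?_
    refine (Finset.sum_le_sum (fun p _ => hf p)).trans ?_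
    simpa using hPcard
  -- the error from the totients
  have hE : |F * ∑ d ∈ T, c d * (kw k d * (1 / (Nat.totient d : ℝ) - 1 / (d : ℝ)))| ≤
      Ck k ε * C₂ * (N : ℝ) ^ (1 - ε / 2) := by
    have hnn : ∀ d : ℕ, 1 ≤ d → 0 ≤ 1 / (Nat.totient d : ℝ) - 1 / (d : ℝ) := by
      intro d hd
      have h1 : 0 < Nat.totient d := Nat.totient_pos.2 hd
      have h2 : (Nat.totient d : ℝ) ≤ d := by exact_mod_cast Nat.totient_le d
      have h1' : (0 : ℝ) < Nat.totient d := by exact_mod_cast h1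
      have := one_div_le_one_div_of_le h1' h2
      linarith
    have hs : |∑ d ∈ T, c d * (kw k d * (1 / (Nat.totient d : ℝ) - 1 / (d : ℝ)))| ≤
        Ck k ε * (C₂ * (N : ℝ) ^ (-(ε / 2))) := by
      refine (Finset.abs_sum_le_sum_abs _ _).trans ?_
      refine le_trans ?_ (mul_le_mul_of_nonneg_left (hRT N hN2) hK0.le)
      have hsub : T ⊆ BX.roughs ((N : ℝ) ^ ε) N := by
        intro d hd
        have h := hT d hd
        exact BX.TaskPR.mem_roughs_iff.2 ⟨⟨h.1.le, h.2.1.trans hXN⟩, Mo.rough h⟩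
      rw [Finset.mul_sum]
      calc ∑ d ∈ T, |c d * (kw k d * (1 / (Nat.totient d : ℝ) - 1 / (d : ℝ)))|
          ≤ ∑ d ∈ T, Ck k ε * (1 / (Nat.totient d : ℝ) - 1 / (d : ℝ)) := by
            apply Finset.sum_le_sum
            intro d hd
            have h0 := hnn d (hT d hd).1.le
            have hk0 := kw_nonneg k d
            have hk1 := kw_le (k := k) hε hN2 ((hT d hd).2.1.trans hXN) (Mo.rough (hT d hd))
            rw [abs_mul, abs_of_nonneg (mul_nonneg hk0 h0)]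
            calc |c d| * _ ≤ 1 * (Ck k ε * (1 / (Nat.totient d : ℝ) - 1 / (d : ℝ))) :=
                  mul_le_mul (co_bd k f N S T d) (mul_le_mul_of_nonneg_right hk1 h0)
                    (mul_nonneg hk0 h0) zero_le_one
              _ = _ := one_mul _
        _ ≤ ∑ d ∈ BX.roughs ((N : ℝ) ^ ε) N,
              Ck k ε * (1 / (Nat.totient d : ℝ) - 1 / (d : ℝ)) := by
            apply Finset.sum_le_sum_of_subset_of_nonneg hsub
            intro d hd _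
            exact mul_nonneg hK0.le (hnn d (BX.TaskPR.mem_roughs_iff.1 hd).1.1)
    rw [abs_mul]
    calc |F| * |∑ d ∈ T, c d * (kw k d * (1 / (Nat.totient d : ℝ) - 1 / (d : ℝ)))|
        ≤ N * (Ck k ε * (C₂ * (N : ℝ) ^ (-(ε / 2)))) :=
          mul_le_mul hFabs hs (abs_nonneg _) hNpos.le
      _ = Ck k ε * C₂ * (N : ℝ) ^ (1 - ε / 2) := by
          rw [sub_eq_add_neg, Real.rpow_add hNpos, Real.rpow_one]
          ring
  -- the main identity
  have hT' : ∀ d ∈ T, 1 < d ∧ d ≤ X := fun d hd => ⟨(hT d hd).1, (hT d hd).2.1⟩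
  have hid : ∑ d ∈ T, |DK k f N S d| = ∑ p ∈ P, f p * RK k c X S p -
      F * ∑ d ∈ T, c d * (kw k d * (1 / (Nat.totient d : ℝ) - 1 / (d : ℝ))) := by
    have h1 : ∑ d ∈ T, |DK k f N S d| = ∑ d ∈ T, c d * DK k f N S d :=
      Finset.sum_congr rfl (fun d hd => (co_mul hd).symm)
    have h2 : ∑ p ∈ P, f p * RK k c X S p = ∑ d ∈ T, c d * ∑ p ∈ P, f p * dk k d (Fp S p) := by
      have h3 : ∀ p ∈ P, f p * RK k c X S p = ∑ d ∈ T, c d * (f p * dk k d (Fp S p)) := by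
        intro p _
        rw [hc, RK_eq k f N X S T hT', Finset.mul_sum]
        apply Finset.sum_congr rfl
        intro d _
        ring
      rw [Finset.sum_congr rfl h3, Finset.sum_comm]
      apply Finset.sum_congr rfl
      intro d _
      rw [Finset.mul_sum]
    rw [h1, h2, Finset.mul_sum, ← Finset.sum_sub_distrib]
    apply Finset.sum_congr rfl
    intro d _
    rw [DK_eq]
    ring
  -- replace RK by rK
  have hself : |∑ p ∈ P, f p * (RK k c X S p - rK k c X S p)| ≤ k * Ck k ε * X := by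
    have hz : ∀ p ∈ P, Fp S p ≠ 0 → f p * (RK k c X S p - rK k c X S p) = 0 := by
      intro p _ hp
      unfold rK
      rw [if_neg hp, sub_self, mul_zero]
    have h1 : ∑ p ∈ P, f p * (RK k c X S p - rK k c X S p) =
        ∑ p ∈ P.filter (fun p : ℕ => Fp S p = 0), f p * (RK k c X S p - rK k c X S p) :=
      (Finset.sum_filter_of_ne (fun p hp hne => by
        by_contra h
        exact hne (hz p hp h))).symm
    rw [h1]
    refine (Finset.abs_sum_le_sum_abs _ _).trans ?_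
    have h2 : ∀ p ∈ P.filter (fun p : ℕ => Fp S p = 0),
        |f p * (RK k c X S p - rK k c X S p)| ≤ Ck k ε * X := by
      intro p hp
      have hp0 := (Finset.mem_filter.1 hp).2
      have h3 : rK k c X S p = 0 := by
        unfold rK
        rw [if_pos hp0]
      rw [h3, sub_zero, abs_mul]
      calc |f p| * |RK k c X S p| ≤ 1 * (Ck k ε * X) :=
            mul_le_mul (hf p) (RK_bd hε hN2 hXN hCof p) (abs_nonneg _) zero_le_one
        _ = _ := one_mul _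
    refine (Finset.sum_le_sum h2).trans ?_
    rw [Finset.sum_const, nsmul_eq_mul]
    have h3 := card_zero hS P
    calc ((P.filter (fun p : ℕ => Fp S p = 0)).card : ℝ) * (Ck k ε * X) ≤
          k * (Ck k ε * X) := mul_le_mul_of_nonneg_right h3 (by positivity)
      _ = k * Ck k ε * X := by ring
  -- small primes
  have hsmall : |∑ p ∈ P.filter (fun p => ¬ z < p), f p * rK k c X S p| ≤ 2 * C₁ * z := by
    refine (Finset.abs_sum_le_sum_abs _ _).trans ?_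
    have hterm : ∀ p ∈ P.filter (fun p => ¬ z < p), |f p * rK k c X S p| ≤ 2 * C₁ := by
      intro p hp
      have hpP := (Finset.mem_filter.1 hp).1
      have hpN : p ≤ N := (Finset.mem_Icc.1 (Finset.mem_filter.1 hpP).1).2
      have h1 := hPB N X hN1 hXN S hS c hCof p
      have h2 : (1 + |(((p : ℕ) : ℤ) : ℝ)| / N) ≤ 2 := by
        have h3 : |(((p : ℕ) : ℤ) : ℝ)| = (p : ℝ) := by
          rw [Int.cast_natCast]
          exact abs_of_nonneg (Nat.cast_nonneg p)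
        rw [h3]
        have h4 : (p : ℝ) / N ≤ 1 := by
          rw [div_le_one hNpos]
          exact_mod_cast hpN
        linarith
      have h0 : (0 : ℝ) ≤ 1 + |(((p : ℕ) : ℤ) : ℝ)| / N := by positivity
      have h5 : (1 + |(((p : ℕ) : ℤ) : ℝ)| / N) ^ (1 / 4 : ℝ) ≤ 2 := by
        calc (1 + |(((p : ℕ) : ℤ) : ℝ)| / N) ^ (1 / 4 : ℝ) ≤ (2 : ℝ) ^ (1 / 4 : ℝ) :=
              Real.rpow_le_rpow h0 h2 (by norm_num)
          _ ≤ (2 : ℝ) ^ (1 : ℝ) := Real.rpow_le_rpow_of_exponent_le (by norm_num) (by norm_num)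
          _ = 2 := Real.rpow_one 2
      rw [abs_mul]
      calc |f p| * |rK k c X S p| ≤ 1 * (C₁ * (1 + |(((p : ℕ) : ℤ) : ℝ)| / N) ^ (1 / 4 : ℝ)) :=
            mul_le_mul (hf p) h1 (abs_nonneg _) zero_le_one
        _ ≤ 2 * C₁ := by nlinarith
    refine (Finset.sum_le_sum hterm).trans ?_
    rw [Finset.sum_const, nsmul_eq_mul]
    have hcard : (P.filter (fun p => ¬ z < p)).card ≤ z := by
      have hsub : P.filter (fun p => ¬ z < p) ⊆ Icc 1 z := by
        intro p hp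
        rw [Finset.mem_filter] at hp
        have h1 := Finset.mem_Icc.1 (Finset.mem_filter.1 hp.1).1
        exact Finset.mem_Icc.2 ⟨h1.1, not_lt.1 hp.2⟩
      calc (P.filter (fun p => ¬ z < p)).card ≤ (Icc 1 z).card := Finset.card_le_card hsub
        _ = z := by rw [Nat.card_Icc]; omega
    have hcard' : ((P.filter (fun p => ¬ z < p)).card : ℝ) ≤ z := by exact_mod_cast hcard
    calc ((P.filter (fun p => ¬ z < p)).card : ℝ) * (2 * C₁) ≤ z * (2 * C₁) :=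
          mul_le_mul_of_nonneg_right hcard' (by positivity)
      _ = 2 * C₁ * z := by ring
  -- splitting
  have hsplit : ∑ p ∈ P, f p * RK k c X S p =
      ∑ p ∈ P.filter (fun p => z < p), f p * rK k c X S p +
      ∑ p ∈ P.filter (fun p => ¬ z < p), f p * rK k c X S p +
      ∑ p ∈ P, f p * (RK k c X S p - rK k c X S p) := by
    rw [Finset.sum_filter_add_sum_filter_not, ← Finset.sum_add_distrib]
    apply Finset.sum_congr rfl
    intro p _
    ring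
  have hfil : (Icc 1 N).filter (fun p => p.Prime ∧ z < p) = P.filter (fun p => z < p) := by
    rw [hP, Finset.filter_filter]
  rw [hfil, hid, hsplit]
  have e1 := le_abs_self (∑ p ∈ P.filter (fun p => z < p), f p * rK k c X S p)
  have e2 := le_abs_self (∑ p ∈ P.filter (fun p => ¬ z < p), f p * rK k c X S p)
  have e3 := le_abs_self (∑ p ∈ P, f p * (RK k c X S p - rK k c X S p))
  have e4 := neg_abs_le (F * ∑ d ∈ T, c d * (kw k d * (1 / (Nat.totient d : ℝ) - 1 / (d : ℝ))))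
  have hz0 : (0 : ℝ) ≤ z := Nat.cast_nonneg z
  have hX0 : (0 : ℝ) ≤ X := Nat.cast_nonneg X
  have hp0 : 0 ≤ (N : ℝ) ^ (1 - ε / 2) := by positivity
  obtain ⟨K1, hK1e⟩ : ∃ K1, K1 = (k : ℝ) * Ck k ε := ⟨_, rfl⟩
  obtain ⟨K2, hK2e⟩ : ∃ K2, K2 = Ck k ε * C₂ := ⟨_, rfl⟩
  have hK10 : 0 ≤ K1 := by rw [hK1e]; positivity
  have hK20 : 0 ≤ K2 := by rw [hK2e]; positivity
  rw [← hK1e] at hself
  rw [← hK2e] at hE
  rw [← hK1e, ← hK2e]
  have k1 : 2 * C₁ * z ≤ (2 * C₁ + K1 + K2) * z := by nlinarith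
  have k2 : K1 * X ≤ (2 * C₁ + K1 + K2) * X := by nlinarith
  have k3 : K2 * (N : ℝ) ^ (1 - ε / 2) ≤ (2 * C₁ + K1 + K2) * (N : ℝ) ^ (1 - ε / 2) := by nlinarith
  have k4 : (2 * C₁ + K1 + K2) * (z + X + (N : ℝ) ^ (1 - ε / 2)) =
      (2 * C₁ + K1 + K2) * z + (2 * C₁ + K1 + K2) * X +
        (2 * C₁ + K1 + K2) * (N : ℝ) ^ (1 - ε / 2) := by ring
  rw [k4]
  linarith


lemma hatk_th1 (k : ℕ) {D : ℕ} (hD : 1 ≤ D) : hatk k th1 D = 1 := by
  unfold hatk
  rw [sum_eq_single 1]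
  · unfold th1 kw
    simp
  · intro e _ he
    unfold th1
    rw [if_neg he, zero_mul, zero_div]
  · intro h
    exact absurd (mem_Icc.2 ⟨le_rfl, hD⟩) h

/-- the diagonal sum -/
lemma diag_gen {N z : ℕ} {lam : ℕ → ℝ} {x t R : ℤ → ℝ} {K H bR bt : ℝ} (hN : 1 ≤ N)
    (hlam : BX.SW z lam) (hGS : BX.St_GS) (hK : 0 ≤ K) (hx01 : ∀ n, x n = 0 ∨ x n = 1)
    (hxt : ∀ n, x n ≤ t n) (hbR : ∀ n, |R n| ≤ bR) (hbt : ∀ n, |t n| ≤ bt)
    (hR : ∀ n : ℤ, |R n| ≤ K * (1 + |(n : ℝ)| / N) ^ (1 / 4 : ℝ))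
    (hH : ∑' n : ℤ, Wt (2 * N) n * BX.nuS lam z n * t n ≤ H) :
    ∑' n : ℤ, Wt N n * BX.nuS lam z n * ((x n * R n) * (x n * R n)) ≤ 2 * K ^ 2 * H := by
  have hgs := (hGS N hN).1
  have hbR0 : 0 ≤ bR := (abs_nonneg _).trans (hbR 0)
  have h1 : ∀ n, |x n * R n| ≤ bR := by
    intro n
    rw [abs_mul]
    have hx : |x n| ≤ 1 := by
      rcases hx01 n with h | h <;> rw [h] <;> norm_num
    calc |x n| * |R n| ≤ 1 * bR := mul_le_mul hx (hbR n) (abs_nonneg _) zero_le_one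
      _ = bR := one_mul _
  have hs1 : Summable (fun n : ℤ => Wt N n * BX.nuS lam z n * ((x n * R n) * (x n * R n))) := by
    refine summ_mul (K := bR * bR) hN hlam (fun n => ?_)
    rw [abs_mul]
    exact mul_le_mul (h1 n) (h1 n) (abs_nonneg _) hbR0
  have hs2 : Summable (fun n : ℤ => Wt (2 * N) n * BX.nuS lam z n * t n) :=
    summ_mul (K := bt) (by omega) hlam hbt
  calc ∑' n : ℤ, Wt N n * BX.nuS lam z n * ((x n * R n) * (x n * R n))
      ≤ ∑' n : ℤ, 2 * K ^ 2 * (Wt (2 * N) n * BX.nuS lam z n * t n) := by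
        refine hs1.tsum_le_tsum (fun n => ?_) (hs2.mul_left _)
        have hu : (1 : ℝ) ≤ 1 + |(n : ℝ)| / N := by
          have : 0 ≤ |(n : ℝ)| / N := by positivity
          linarith
        have h := point_diag (hx01 n) (hxt n) (Real.exp_nonneg _ : 0 ≤ Wt N n)
          (sq_nonneg _ : 0 ≤ BX.nuS lam z n) hu hK (hR n) (hgs n)
        rwa [mul_one] at h
    _ = 2 * K ^ 2 * ∑' n : ℤ, (Wt (2 * N) n * BX.nuS lam z n * t n) := tsum_mul_left
    _ ≤ 2 * K ^ 2 * H := mul_le_mul_of_nonneg_left hH (by positivity)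

/-- the off-diagonal sums -/
lemma off_gen {N z : ℕ} {lam : ℕ → ℝ} {x x' t t' s s' R R' : ℤ → ℝ} {K H O bR bt : ℝ}
    (hN : 1 ≤ N) (hlam : BX.SW z lam) (hGS : BX.St_GS) (hK : 0 ≤ K)
    (hx01 : ∀ n, x n = 0 ∨ x n = 1) (hx01' : ∀ n, x' n = 0 ∨ x' n = 1)
    (hxt : ∀ n, x n ≤ t n) (hxt' : ∀ n, x' n ≤ t' n)
    (hs : ∀ n, t n - x n ≤ s n) (hs' : ∀ n, t' n - x' n ≤ s' n)
    (hbR : ∀ n, |R n| ≤ bR) (hbR' : ∀ n, |R' n| ≤ bR) (hbt : ∀ n, |t n| ≤ bt)
    (hbt' : ∀ n, |t' n| ≤ bt) (hbs : ∀ n, |s n| ≤ bt) (hbs' : ∀ n, |s' n| ≤ bt)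
    (hR : ∀ n : ℤ, |R n| ≤ K * (1 + |(n : ℝ)| / N) ^ (1 / 4 : ℝ))
    (hR' : ∀ n : ℤ, |R' n| ≤ K * (1 + |(n : ℝ)| / N) ^ (1 / 4 : ℝ))
    (hO : |∑' n : ℤ, Wt N n * BX.nuS lam z n * (t n * t' n) * (R n * R' n)| ≤ O)
    (hH : ∑' n : ℤ, Wt (2 * N) n * BX.nuS lam z n * (s n * t' n) ≤ H)
    (hH' : ∑' n : ℤ, Wt (2 * N) n * BX.nuS lam z n * (t n * s' n) ≤ H) :
    |∑' n : ℤ, Wt N n * BX.nuS lam z n * ((x n * R n) * (x' n * R' n))| ≤
      O + 4 * K ^ 2 * H := by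
  have hgs := (hGS N hN).1
  have hbR0 : 0 ≤ bR := (abs_nonneg _).trans (hbR 0)
  have hbt0 : 0 ≤ bt := (abs_nonneg _).trans (hbt 0)
  have ax : ∀ n, |x n| ≤ 1 := by
    intro n
    rcases hx01 n with h | h <;> rw [h] <;> norm_num
  have ax' : ∀ n, |x' n| ≤ 1 := by
    intro n
    rcases hx01' n with h | h <;> rw [h] <;> norm_num
  have px : ∀ n, 0 ≤ x n := by
    intro n
    rcases hx01 n with h | h <;> rw [h] <;> norm_num
  have px' : ∀ n, 0 ≤ x' n := by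
    intro n
    rcases hx01' n with h | h <;> rw [h] <;> norm_num
  have b1 : ∀ n, |x n * R n| ≤ bR := by
    intro n
    rw [abs_mul]
    calc |x n| * |R n| ≤ 1 * bR := mul_le_mul (ax n) (hbR n) (abs_nonneg _) zero_le_one
      _ = bR := one_mul _
  have b2 : ∀ n, |x' n * R' n| ≤ bR := by
    intro n
    rw [abs_mul]
    calc |x' n| * |R' n| ≤ 1 * bR := mul_le_mul (ax' n) (hbR' n) (abs_nonneg _) zero_le_one
      _ = bR := one_mul _
  have hs1 : Summable (fun n : ℤ => Wt N n * BX.nuS lam z n * ((x n * R n) * (x' n * R' n))) := by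
    refine summ_mul (K := bR * bR) hN hlam (fun n => ?_)
    rw [abs_mul]
    exact mul_le_mul (b1 n) (b2 n) (abs_nonneg _) hbR0
  have hs2 : Summable (fun n : ℤ => Wt N n * BX.nuS lam z n * (t n * t' n) * (R n * R' n)) := by
    have h1 : Summable (fun n : ℤ => Wt N n * BX.nuS lam z n *
      ((t n * t' n) * (R n * R' n))) := by
      refine summ_mul (K := (bt * bt) * (bR * bR)) hN hlam (fun n => ?_)
      rw [abs_mul, abs_mul, abs_mul]
      have h2 : |t n| * |t' n| ≤ bt * bt :=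
        mul_le_mul (hbt n) (hbt' n) (abs_nonneg _) hbt0
      have h3 : |R n| * |R' n| ≤ bR * bR :=
        mul_le_mul (hbR n) (hbR' n) (abs_nonneg _) hbR0
      exact mul_le_mul h2 h3 (by positivity) (by positivity)
    refine h1.congr (fun n => ?_)
    ring
  have hs3 : Summable (fun n : ℤ => Wt (2 * N) n * BX.nuS lam z n * (s n * t' n)) := by
    refine summ_mul (K := bt * bt) (by omega) hlam (fun n => ?_)
    rw [abs_mul]
    exact mul_le_mul (hbs n) (hbt' n) (abs_nonneg _) hbt0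
  have hs4 : Summable (fun n : ℤ => Wt (2 * N) n * BX.nuS lam z n * (t n * s' n)) := by
    refine summ_mul (K := bt * bt) (by omega) hlam (fun n => ?_)
    rw [abs_mul]
    exact mul_le_mul (hbt n) (hbs' n) (abs_nonneg _) hbt0
  have key : |∑' n : ℤ, Wt N n * BX.nuS lam z n * ((x n * R n) * (x' n * R' n)) -
      ∑' n : ℤ, Wt N n * BX.nuS lam z n * (t n * t' n) * (R n * R' n)| ≤
      2 * K ^ 2 * H + 2 * K ^ 2 * H := by
    rw [← hs1.tsum_sub hs2]
    have hs5 := (hs3.mul_left (2 * K ^ 2)).add (hs4.mul_left (2 * K ^ 2))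
    have h1 : ∀ n : ℤ, |Wt N n * BX.nuS lam z n * ((x n * R n) * (x' n * R' n)) -
      Wt N n * BX.nuS lam z n * (t n * t' n) * (R n * R' n)| ≤
      2 * K ^ 2 * (Wt (2 * N) n * BX.nuS lam z n * (s n * t' n)) +
      2 * K ^ 2 * (Wt (2 * N) n * BX.nuS lam z n * (t n * s' n)) := by
      intro n
      have hu : (1 : ℝ) ≤ 1 + |(n : ℝ)| / N := by
        have : 0 ≤ |(n : ℝ)| / N := by positivity
        linarith
      exact point_off (px n) (px' n) (hxt n) (hxt' n) (hs n) (hs' n)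
        (Real.exp_nonneg _) (sq_nonneg _) hu hK (hR n) (hR' n) (hgs n)
    have h2 := tsum_of_norm_bounded hs5.hasSum (fun n => by
      rw [Real.norm_eq_abs]
      exact h1 n)
    rw [Real.norm_eq_abs] at h2
    refine h2.trans ?_
    rw [(hs3.mul_left (2 * K ^ 2)).tsum_add (hs4.mul_left (2 * K ^ 2)), tsum_mul_left,
      tsum_mul_left]
    have hk : 0 ≤ 2 * K ^ 2 := by positivity
    exact add_le_add (mul_le_mul_of_nonneg_left hH hk) (mul_le_mul_of_nonneg_left hH' hk)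
  have h3 := abs_sub_abs_le_abs_sub (∑' n : ℤ, Wt N n * BX.nuS lam z n *
      ((x n * R n) * (x' n * R' n)))
      (∑' n : ℤ, Wt N n * BX.nuS lam z n * (t n * t' n) * (R n * R' n))
  linarith

/-- the error of CORK at `N` and at `2N` -/
lemma ev_errK (C κ : ℝ) (E Q : ℕ) (hC : 0 < C) (hκ : 0 < κ) : ∃ N₀ : ℕ, ∀ N : ℕ, N₀ ≤ N →
    ∀ B : ℕ, E + Q + 3 ≤ B → ∀ M : ℕ, (M = N ∨ M = 2 * N) →
    C * Real.log N ^ 2 * ((M : ℝ) * Real.log M ^ E / Real.log N ^ B + 1) ≤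
      κ * (N : ℝ) / Real.log N ^ Q := by
  obtain ⟨N1, h1⟩ := ev_log C (κ / 2) 1 (Q + 2) (by positivity) one_pos
  have h2 : ∃ N2 : ℕ, ∀ N : ℕ, N2 ≤ N → max 1 (2 ^ (E + 2) * C / κ) ≤ Real.log N := by
    have := (Real.tendsto_log_atTop.comp (tendsto_natCast_atTop_atTop (R := ℝ))).eventually_ge_atTop
      (max 1 (2 ^ (E + 2) * C / κ))
    exact Filter.eventually_atTop.1 this
  obtain ⟨N2, h2⟩ := h2
  refine ⟨max N1 (max N2 2), fun N hN B hB M hM => ?_⟩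
  have hN1 : N1 ≤ N := (le_max_left _ _).trans hN
  have hN2 : N2 ≤ N := ((le_max_left _ _).trans (le_max_right _ _)).trans hN
  have hN3 : 2 ≤ N := ((le_max_right _ _).trans (le_max_right _ _)).trans hN
  have hNr : (2 : ℝ) ≤ N := by exact_mod_cast hN3
  have hN0 : (0 : ℝ) < N := by linarith
  have a1 := h1 N hN1
  have a2 := h2 N hN2
  set L := Real.log N with hL
  have hL1 : 1 ≤ L := (le_max_left _ _).trans a2
  have hL2 : 2 ^ (E + 2) * C / κ ≤ L := (le_max_right _ _).trans a2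
  have hL0 : 0 < L := by linarith
  have hMN : (M : ℝ) ≤ 2 * N := by
    rcases hM with h | h
    · rw [h]; linarith
    · rw [h]; push_cast; exact le_rfl
  have hM1 : (1 : ℝ) ≤ M := by
    rcases hM with h | h
    · rw [h]; linarith
    · rw [h]; push_cast; linarith
  have hlM : Real.log M ≤ 2 * L := by
    calc Real.log M ≤ Real.log (2 * N) := Real.log_le_log (by linarith) hMN
      _ = Real.log 2 + L := by rw [Real.log_mul (by norm_num) (by linarith)]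
      _ ≤ 2 * L := by
          have : Real.log 2 ≤ L := Real.log_le_log (by norm_num) hNr
          linarith
  have hlM0 : 0 ≤ Real.log M := Real.log_nonneg hM1
  have hLB : L ^ (E + Q + 3) ≤ L ^ B := pow_le_pow_right₀ hL1 hB
  have b1 : (M : ℝ) * Real.log M ^ E / L ^ B ≤ (2 * N) * (2 * L) ^ E / L ^ (E + Q + 3) := by
    gcongr
  have b2 : (2 * (N : ℝ)) * (2 * L) ^ E / L ^ (E + Q + 3) = 2 ^ (E + 1) * N / L ^ (Q + 3) := by
    rw [div_eq_div_iff (by positivity) (by positivity), mul_pow]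
    ring
  have b3 : C * L ^ 2 * (2 ^ (E + 1) * N / L ^ (Q + 3)) ≤ κ / 2 * N / L ^ Q := by
    rw [div_le_iff₀ hκ] at hL2
    rw [← mul_div_assoc, div_le_div_iff₀ (by positivity) (by positivity)]
    have e1 : C * L ^ 2 * (2 ^ (E + 1) * N) * L ^ Q = (2 ^ (E + 2) * C) * (L ^ (Q + 2) * N / 2) := by
      ring
    have e2 : κ / 2 * N * L ^ (Q + 3) = (L * κ) * (L ^ (Q + 2) * N / 2) := by ring
    rw [e1, e2]
    exact mul_le_mul_of_nonneg_right hL2 (by positivity)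
  have b4 : C * L ^ 2 ≤ κ / 2 * N / L ^ Q := by
    rw [le_div_iff₀ (by positivity)]
    rw [Real.rpow_one] at a1
    calc C * L ^ 2 * L ^ Q = C * L ^ (Q + 2) := by ring
      _ ≤ κ / 2 * N := a1
  calc C * L ^ 2 * ((M : ℝ) * Real.log M ^ E / L ^ B + 1)
      ≤ C * L ^ 2 * (2 ^ (E + 1) * N / L ^ (Q + 3) + 1) := by
        rw [b2] at b1
        gcongr
    _ = C * L ^ 2 * (2 ^ (E + 1) * N / L ^ (Q + 3)) + C * L ^ 2 := by ring
    _ ≤ κ / 2 * N / L ^ Q + κ / 2 * N / L ^ Q := add_le_add b3 b4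
    _ = κ * N / L ^ Q := by ring

lemma ev_powK (C κ s : ℝ) (Q : ℕ) (hκ : 0 < κ) (hs : 0 < s) : ∃ N₀ : ℕ, ∀ N : ℕ, N₀ ≤ N →
    C * (N : ℝ) ^ (1 - s) ≤ κ * (N : ℝ) / Real.log N ^ Q := by
  obtain ⟨N1, h1⟩ := ev_log C κ s Q hκ hs
  refine ⟨max N1 2, fun N hN => ?_⟩
  have hN1 : N1 ≤ N := (le_max_left _ _).trans hN
  have hN3 : 2 ≤ N := (le_max_right _ _).trans hN
  have hNr : (2 : ℝ) ≤ N := by exact_mod_cast hN3
  have hN0 : (0 : ℝ) < N := by linarith
  have hL0 : 0 < Real.log N := Real.log_pos (by linarith)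
  have a1 := h1 N hN1
  rw [le_div_iff₀ (by positivity)]
  have h2 : (N : ℝ) = (N : ℝ) ^ (1 - s) * (N : ℝ) ^ s := by
    rw [← Real.rpow_add hN0]
    simp
  calc C * (N : ℝ) ^ (1 - s) * Real.log N ^ Q = (N : ℝ) ^ (1 - s) * (C * Real.log N ^ Q) := by ring
    _ ≤ (N : ℝ) ^ (1 - s) * (κ * (N : ℝ) ^ s) :=
        mul_le_mul_of_nonneg_left a1 (Real.rpow_nonneg hN0.le _)
    _ = κ * ((N : ℝ) ^ (1 - s) * (N : ℝ) ^ s) := by ring
    _ = κ * N := by rw [← h2]

/-- the final constant -/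
lemma fin_constK {ε₁ A₀ c₁ : ℝ} (hε : 0 < ε₁) (hε1 : ε₁ ≤ 1 / 10) (hc : 0 < c₁) :
    (5816250 / ε₁ ^ 2 * Real.exp (2 * c₁ / ε₁) ^ 2 + 2) *
      Real.exp (-((A₀ + 4 * c₁ + 10) / ε₁)) ≤ Real.exp (-(A₀ / ε₁)) := by
  set x := 1 / ε₁ with hx
  have hx10 : 10 ≤ x := by
    rw [hx, le_div_iff₀ hε]
    linarith
  have e1 : Real.exp (2 * c₁ / ε₁) ^ 2 = Real.exp (4 * c₁ * x) := by
    rw [← Real.exp_nat_mul]
    congr 1
    rw [hx]
    push_cast
    ring
  have e2 : Real.exp (-((A₀ + 4 * c₁ + 10) / ε₁)) =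
      Real.exp (-(A₀ / ε₁)) * (Real.exp (-(4 * c₁ * x)) * Real.exp (-(10 * x))) := by
    rw [← Real.exp_add, ← Real.exp_add]
    congr 1
    rw [hx]
    ring
  have e3 : 5816250 / ε₁ ^ 2 = 5816250 * x ^ 2 := by
    rw [hx]
    field_simp
  rw [e1, e2, e3]
  set K := Real.exp (4 * c₁ * x) with hK
  have hK1 : 1 ≤ K := Real.one_le_exp (by positivity)
  have hKK : K * Real.exp (-(4 * c₁ * x)) = 1 := by
    rw [hK, ← Real.exp_add]
    simp
  have h1 : 5816250 * x ^ 2 * K + 2 ≤ 5816252 * x ^ 2 * K := by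
    have : 1 ≤ x ^ 2 * K := by nlinarith [mul_nonneg (sq_nonneg x) (by linarith : (0:ℝ) ≤ K - 1)]
    nlinarith
  have h2 : 5816252 * x ^ 2 ≤ Real.exp (10 * x) := by
    have h3 : x ≤ Real.exp x := (by linarith : x ≤ x + 1).trans (Real.add_one_le_exp x)
    have h4 : x ^ 2 ≤ Real.exp x ^ 2 := pow_le_pow_left₀ (by linarith) h3 2
    have h5 : (5816252 : ℝ) ≤ Real.exp x ^ 8 := by
      have h6 : (10 : ℝ) ≤ Real.exp x := hx10.trans h3
      calc (5816252 : ℝ) ≤ 10 ^ 8 := by norm_num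
        _ ≤ Real.exp x ^ 8 := pow_le_pow_left₀ (by norm_num) h6 8
    calc 5816252 * x ^ 2 ≤ Real.exp x ^ 8 * Real.exp x ^ 2 := by gcongr
      _ = Real.exp (10 * x) := by
          rw [← pow_add, ← Real.exp_nat_mul]
          norm_num
  have h3 : 5816252 * x ^ 2 * Real.exp (-(10 * x)) ≤ 1 := by
    calc 5816252 * x ^ 2 * Real.exp (-(10 * x)) ≤ Real.exp (10 * x) * Real.exp (-(10 * x)) := by
          gcongr
      _ = 1 := by
          rw [← Real.exp_add]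
          simp
  set a := Real.exp (-(A₀ / ε₁)) with ha
  have ha0 : 0 < a := Real.exp_pos _
  set b := Real.exp (-(4 * c₁ * x)) with hb
  have hb0 : 0 < b := Real.exp_pos _
  set d := Real.exp (-(10 * x)) with hd
  have hd0 : 0 < d := Real.exp_pos _
  calc (5816250 * x ^ 2 * K + 2) * (a * (b * d)) ≤ (5816252 * x ^ 2 * K) * (a * (b * d)) := by
        gcongr
    _ = a * (K * b) * (5816252 * x ^ 2 * d) := by ring
    _ = a * (5816252 * x ^ 2 * d) := by rw [hKK]; ring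
    _ ≤ a * 1 := by gcongr
    _ = a := mul_one a

/-- the final computation, numbers only -/
lemma numK {y V K ρ ε₁ Fs G O SY Sa E c : ℝ} (hy : 0 < y) (hV : 0 < V) (hK : 1 ≤ K) (hρ : 0 < ρ)
    (hε : 0 < ε₁) (hc : 0 ≤ c) (hFs : Fs ≤ 225 / ε₁ * y)
    (hG : G = 130 / ε₁ * K ^ 2 * (y * V)) (hO : O = 517 / ε₁ * K ^ 2 * (ρ * V ^ 2 * y))
    (hSY : SY ≤ 25 * Fs * (G + c * O)) (hE : E ^ 2 ≤ ρ * V ^ 2 * y ^ 2)
    (hSa : Sa ≤ 2 * SY + 2 * c * E ^ 2) :
    Sa ≤ y ^ 2 * (1462500 / ε₁ ^ 2 * K ^ 2 * V +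
      (5816250 / ε₁ ^ 2 * K ^ 2 + 2) * ρ * V ^ 2 * c) := by
  have hG0 : 0 ≤ G := by rw [hG]; positivity
  have hO0 : 0 ≤ O := by rw [hO]; positivity
  calc Sa ≤ 2 * SY + 2 * c * E ^ 2 := hSa
    _ ≤ 2 * (25 * Fs * (G + c * O)) + 2 * c * (ρ * V ^ 2 * y ^ 2) := by gcongr
    _ ≤ 2 * (25 * (225 / ε₁ * y) * (G + c * O)) + 2 * c * (ρ * V ^ 2 * y ^ 2) := by gcongr
    _ = _ := by
        rw [hG, hO]
        field_simp
        ring

end Pool.Agent.W214.KS
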